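import Pool.Agent.Y80.KM.JobDefs

set_option autoImplicit false
set_option linter.unusedSectionVars false

open scoped BigOperators

/-! Job R3 of project KM: the alternating sum of weight multiplicities of a module of `sl_3`
without invariants vanishes. Traces of `D E_ji E_ij` on weight spaces, with `D` the inverse of the
Casimir operator, telescope. -/

namespace Pool.Agent.Y556.KM

open Pool.Agent.Y80.KM

variable {k M : Type*} [Field k] [CharZero k] [AddCommGroup M] [Module k M]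

/-! ### a form of the theory of `sl_2` -/

theorem sl2v [FiniteDimensional k M] (h e f : Module.End k M) (hef : e * f - f * e = h)
    (hhe : h * e - e * h = 2 • e) (hhf : h * f - f * h = -(2 • f)) (v : M) (hv : v ≠ 0) (a : k)
    (h1 : h v = a • v) (h2 : e v = 0) : (∃ n : ℕ, a = n) ∧ (a = 0 → f v = 0) := by
  by_cases h0 : h = 0
  · subst h0
    have ha : a = 0 := by
      have : a • v = 0 := by rw [← h1]; rfl
      exact (smul_eq_zero.mp this).resolve_right hv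
    refine ⟨⟨0, by simp [ha]⟩, fun _ => ?_⟩
    have h3 : (2 : k) • f = 0 := by
      have h4 : -(2 • f) = 0 := by rw [← hhf]; simp
      have h5 := neg_eq_zero.mp h4
      rw [← h5, ← Nat.cast_smul_eq_nsmul k]; simp
    have h4 : f = 0 := (smul_eq_zero.mp h3).resolve_left two_ne_zero
    rw [h4]; rfl
  · let _ : LieRing (Module.End k M) := LieRing.ofAssociativeRing
    have t : IsSl2Triple h e f := ⟨h0, hef, hhe, hhf⟩
    have P : t.HasPrimitiveVectorWith v a := ⟨hv, h1, h2⟩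
    refine ⟨P.exists_nat, fun ha => ?_⟩
    have := P.pow_toEnd_f_eq_zero_of_eq_nat (n := 0) (by simp [ha])
    simpa using this

/-! ### matrix units -/

section units

variable (ρ : Matrix (Fin 3) (Fin 3) k →ₗ[k] Module.End k M)

/-- the action of the matrix units -/
def E (i j : Fin 3) : Module.End k M := ρ (Matrix.single i j 1)

theorem E_comm (hρ : ∀ X Y, ρ (X * Y - Y * X) = ρ X * ρ Y - ρ Y * ρ X) (i j p q : Fin 3) :
    E ρ i j * E ρ p q - E ρ p q * E ρ i j =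
      (if j = p then E ρ i q else 0) - (if q = i then E ρ p j else 0) := by
  unfold E
  rw [← hρ, map_sub]
  congr 1
  · split_ifs with h
    · subst h; rw [Matrix.single_mul_single_same, one_mul]
    · rw [Matrix.single_mul_single_of_ne (h := h), map_zero]
  · split_ifs with h
    · subst h; rw [Matrix.single_mul_single_same, one_mul]
    · rw [Matrix.single_mul_single_of_ne (h := h), map_zero]

theorem rho_eq (X : Matrix (Fin 3) (Fin 3) k) : ρ X = ∑ i, ∑ j, X i j • E ρ i j := by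
  conv_lhs => rw [Matrix.matrix_eq_sum_single X]
  rw [map_sum]
  refine Finset.sum_congr rfl fun i _ => ?_
  rw [map_sum]
  refine Finset.sum_congr rfl fun j _ => ?_
  unfold E
  rw [← map_smul, Matrix.smul_single, smul_eq_mul, mul_one]

theorem E_diag (h1 : ρ 1 = 0) : E ρ 0 0 + E ρ 1 1 + E ρ 2 2 = 0 := by
  have := rho_eq ρ 1
  rw [h1] at this
  simp [Fin.sum_univ_three, Matrix.one_apply] at this
  rw [← this]

theorem mem_wsp (μ : Fin 3 → ℤ) (x : M) :
    x ∈ wsp ρ μ ↔ ∀ j, E ρ j j x = ((μ j : ℤ) : k) • x := by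
  unfold wsp E
  simp only [Submodule.mem_iInf, LinearMap.mem_ker, LinearMap.sub_apply, LinearMap.smul_apply,
    LinearMap.id_apply, sub_eq_zero]

theorem E_shift (hρ : ∀ X Y, ρ (X * Y - Y * X) = ρ X * ρ Y - ρ Y * ρ X) (i j : Fin 3)
    {μ ν : Fin 3 → ℤ} (hν : ν = μ + epsd i j) {x : M} (hx : x ∈ wsp ρ μ) :
    E ρ i j x ∈ wsp ρ ν := by
  rw [mem_wsp] at hx ⊢
  intro p
  have h := congrArg (fun A : Module.End k M => A x) (E_comm ρ hρ p p i j)
  simp only [LinearMap.sub_apply, Module.End.mul_apply] at h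
  rw [hx p, map_smul, sub_eq_iff_eq_add] at h
  rw [h, hν]
  simp only [epsd, Pi.add_apply, Pi.sub_apply, Pi.single_apply, Int.cast_add, Int.cast_sub,
    add_smul, sub_smul]
  by_cases h1 : p = i <;> by_cases h2 : j = p
  · subst h1; subst h2; simp
  · have h3 : ¬ p = j := fun h => h2 h.symm
    subst h1; simp [h2, h3]; abel
  · subst h2; simp [h1]; abel
  · have h3 : ¬ p = j := fun h => h2 h.symm
    simp [h1, h2, h3]

/-- the Casimir operator -/
def Cas : Module.End k M := ∑ i, ∑ j, E ρ i j * E ρ j i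

theorem Cas_comm (hρ : ∀ X Y, ρ (X * Y - Y * X) = ρ X * ρ Y - ρ Y * ρ X) (p q : Fin 3) :
    E ρ p q * Cas ρ = Cas ρ * E ρ p q := by
  rw [← sub_eq_zero]
  unfold Cas
  have key : ∀ i j : Fin 3, E ρ p q * (E ρ i j * E ρ j i) - E ρ i j * E ρ j i * E ρ p q =
      (E ρ p q * E ρ i j - E ρ i j * E ρ p q) * E ρ j i +
        E ρ i j * (E ρ p q * E ρ j i - E ρ j i * E ρ p q) := by
    intro i j; noncomm_ring
  simp only [Finset.mul_sum, Finset.sum_mul, ← Finset.sum_sub_distrib]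
  simp only [key, E_comm ρ hρ, sub_mul, mul_sub, ite_mul, mul_ite, zero_mul, mul_zero,
    Finset.sum_add_distrib, Finset.sum_sub_distrib, Finset.sum_ite_eq, Finset.mem_univ, if_true]
  simp

theorem swap_mul (hρ : ∀ X Y, ρ (X * Y - Y * X) = ρ X * ρ Y - ρ Y * ρ X) (i j : Fin 3)
    (ν : Fin 3 → ℤ) {x : M} (hx : x ∈ wsp ρ ν) :
    E ρ i j (E ρ j i x) = E ρ j i (E ρ i j x) + (((ν i : ℤ) : k) - ((ν j : ℤ) : k)) • x := by
  rw [mem_wsp] at hx
  have h := congrArg (fun A : Module.End k M => A x) (E_comm ρ hρ i j j i)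
  simp only [LinearMap.sub_apply, Module.End.mul_apply, if_true] at h
  rw [hx i, hx j, sub_eq_iff_eq_add] at h
  rw [h, sub_smul]; abel

theorem Cas_apply (hρ : ∀ X Y, ρ (X * Y - Y * X) = ρ X * ρ Y - ρ Y * ρ X)
    (ν : Fin 3 → ℤ) {x : M} (hx : x ∈ wsp ρ ν) :
    Cas ρ x = (2 : k) • E ρ 1 0 (E ρ 0 1 x) + (2 : k) • E ρ 2 1 (E ρ 1 2 x) +
      (2 : k) • E ρ 2 0 (E ρ 0 2 x) +
        ((((ν 0) ^ 2 + (ν 1) ^ 2 + (ν 2) ^ 2 + 2 * (ν 0 - ν 2) : ℤ)) : k) • x := by
  have h01 := swap_mul ρ hρ 0 1 ν hx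
  have h02 := swap_mul ρ hρ 0 2 ν hx
  have h12 := swap_mul ρ hρ 1 2 ν hx
  have hx' := (mem_wsp ρ ν x).mp hx
  simp only [Cas, Fin.sum_univ_three, LinearMap.add_apply, Module.End.mul_apply]
  rw [h01, h02, h12]
  simp only [hx' 0, hx' 1, hx' 2, map_smul]
  push_cast
  module

end units

section trace

variable [FiniteDimensional k M] (ρ : Matrix (Fin 3) (Fin 3) k →ₗ[k] Module.End k M)

/-- the trace of an operator on a weight space (zero if the weight space is not stable) -/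
noncomputable def tr (μ : Fin 3 → ℤ) (A : Module.End k M) : k :=
  open Classical in
  if h : ∀ x ∈ wsp ρ μ, A x ∈ wsp ρ μ then LinearMap.trace k (wsp ρ μ) (A.restrict h) else 0

variable {ρ}

theorem tr_eq {μ : Fin 3 → ℤ} {A : Module.End k M} (h : ∀ x ∈ wsp ρ μ, A x ∈ wsp ρ μ) :
    tr ρ μ A = LinearMap.trace k (wsp ρ μ) (A.restrict h) := by
  unfold tr; rw [dif_pos h]

theorem D_stab {D : Module.End k M} (hD : ∀ i j, E ρ i j * D = D * E ρ i j) (μ : Fin 3 → ℤ)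
    {x : M} (hx : x ∈ wsp ρ μ) : D x ∈ wsp ρ μ := by
  rw [mem_wsp] at hx ⊢
  intro j
  have := congrArg (fun A : Module.End k M => A x) (hD j j)
  simp only [Module.End.mul_apply] at this
  rw [this, hx j, map_smul]

theorem T_stab (hρ : ∀ X Y, ρ (X * Y - Y * X) = ρ X * ρ Y - ρ Y * ρ X)
    {D : Module.End k M} (hD : ∀ i j, E ρ i j * D = D * E ρ i j) (i j : Fin 3) (μ : Fin 3 → ℤ)
    (x : M) (hx : x ∈ wsp ρ μ) : (D * E ρ j i * E ρ i j) x ∈ wsp ρ μ := by
  have h1 := E_shift ρ hρ i j (rfl : μ + epsd i j = μ + epsd i j) hx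
  have h2 := E_shift ρ hρ j i (μ := μ + epsd i j) (ν := μ)
    (by funext p; simp only [epsd, Pi.add_apply, Pi.sub_apply]; ring) h1
  exact D_stab hD μ h2

theorem T_step (hρ : ∀ X Y, ρ (X * Y - Y * X) = ρ X * ρ Y - ρ Y * ρ X)
    {D : Module.End k M} (hD : ∀ i j, E ρ i j * D = D * E ρ i j) (i j : Fin 3)
    (μ ν : Fin 3 → ℤ) (hν : ν = μ + epsd i j) :
    tr ρ μ (D * E ρ j i * E ρ i j) =
      tr ρ ν (D * E ρ j i * E ρ i j) + (((ν i - ν j : ℤ)) : k) * tr ρ ν D := by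
  have hμ : μ = ν + epsd j i := by
    rw [hν]; funext p; simp only [epsd, Pi.add_apply, Pi.sub_apply]; ring
  let A : wsp ρ μ →ₗ[k] wsp ρ ν := (E ρ i j).restrict fun x hx => E_shift ρ hρ i j hν hx
  let B : wsp ρ ν →ₗ[k] wsp ρ μ := (D * E ρ j i).restrict fun x hx =>
    D_stab hD μ (E_shift ρ hρ j i hμ hx)
  have h1 : (D * E ρ j i * E ρ i j).restrict (T_stab hρ hD i j μ) = B ∘ₗ A := by
    ext x; rfl
  have h3 : A ∘ₗ B = (D * E ρ j i * E ρ i j).restrict (T_stab hρ hD i j ν) +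
      (((ν i - ν j : ℤ)) : k) • D.restrict (fun x hx => D_stab hD ν hx) := by
    ext x
    have h2 := congrArg (fun A : Module.End k M => A (E ρ j i (x : M))) (hD i j)
    simp only [Module.End.mul_apply] at h2
    change E ρ i j (D (E ρ j i (x : M))) = D (E ρ j i (E ρ i j (x : M))) +
      (((ν i - ν j : ℤ)) : k) • D (x : M)
    rw [h2, swap_mul ρ hρ i j ν x.2, map_add, map_smul]
    push_cast
    rfl
  rw [tr_eq (T_stab hρ hD i j μ), h1, LinearMap.trace_comp_comm', h3, map_add, map_smul,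
    smul_eq_mul, tr_eq (T_stab hρ hD i j ν), tr_eq (fun x hx => D_stab hD ν hx)]

theorem dim_eq (hρ : ∀ X Y, ρ (X * Y - Y * X) = ρ X * ρ Y - ρ Y * ρ X)
    {D : Module.End k M} (hD : ∀ i j, E ρ i j * D = D * E ρ i j) (hDC : D * Cas ρ = 1)
    (ν : Fin 3 → ℤ) : ((Module.finrank k (wsp ρ ν) : ℤ) : k) =
      2 * tr ρ ν (D * E ρ 1 0 * E ρ 0 1) + 2 * tr ρ ν (D * E ρ 2 1 * E ρ 1 2) +
        2 * tr ρ ν (D * E ρ 2 0 * E ρ 0 2) +
        ((((ν 0) ^ 2 + (ν 1) ^ 2 + (ν 2) ^ 2 + 2 * (ν 0 - ν 2) : ℤ)) : k) * tr ρ ν D := by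
  rw [tr_eq (T_stab hρ hD 0 1 ν), tr_eq (T_stab hρ hD 1 2 ν), tr_eq (T_stab hρ hD 0 2 ν),
    tr_eq (fun x hx => D_stab hD ν hx), Int.cast_natCast, ← LinearMap.trace_id k (wsp ρ ν)]
  simp only [← smul_eq_mul, ← map_smul, ← map_add]
  congr 1
  ext x
  have h2 := congrArg (fun A : Module.End k M => A (x : M)) hDC
  simp only [Module.End.mul_apply, Module.End.one_apply] at h2
  change (x : M) = (2 : k) • D (E ρ 1 0 (E ρ 0 1 (x : M))) +
    (2 : k) • D (E ρ 2 1 (E ρ 1 2 (x : M))) + (2 : k) • D (E ρ 2 0 (E ρ 0 2 (x : M))) +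
    ((((ν 0) ^ 2 + (ν 1) ^ 2 + (ν 2) ^ 2 + 2 * (ν 0 - ν 2) : ℤ)) : k) • D (x : M)
  conv_lhs => rw [← h2, Cas_apply ρ hρ ν x.2]
  simp only [map_add, map_smul]

theorem e0_three (f : (Fin 3 → ℤ) → ℤ) : e0 3 f = f ![0, 0, 0] - f ![1, -1, 0] - f ![0, 1, -1] +
    f ![2, -1, -1] + f ![1, 1, -2] - f ![2, 0, -2] := by
  unfold e0
  have h : (Finset.univ : Finset (Equiv.Perm (Fin 3))) =
      {1, Equiv.swap 0 1, Equiv.swap 1 2, Equiv.swap 0 2, Equiv.swap 0 1 * Equiv.swap 1 2,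
        Equiv.swap 1 2 * Equiv.swap 0 1} := by decide
  rw [h, Finset.sum_insert (by decide), Finset.sum_insert (by decide),
    Finset.sum_insert (by decide), Finset.sum_insert (by decide), Finset.sum_insert (by decide),
    Finset.sum_singleton]
  have e1 : (fun i : Fin 3 => ((((1 : Equiv.Perm (Fin 3)) i : ℕ) : ℤ) - ((i : ℕ) : ℤ))) =
      ![0, 0, 0] := by decide
  have e2 : (fun i : Fin 3 => ((((Equiv.swap 0 1 : Equiv.Perm (Fin 3)) i : ℕ) : ℤ) -
      ((i : ℕ) : ℤ))) = ![1, -1, 0] := by decide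
  have e3 : (fun i : Fin 3 => ((((Equiv.swap 1 2 : Equiv.Perm (Fin 3)) i : ℕ) : ℤ) -
      ((i : ℕ) : ℤ))) = ![0, 1, -1] := by decide
  have e4 : (fun i : Fin 3 => ((((Equiv.swap 0 2 : Equiv.Perm (Fin 3)) i : ℕ) : ℤ) -
      ((i : ℕ) : ℤ))) = ![2, 0, -2] := by decide
  have e5 : (fun i : Fin 3 => ((((Equiv.swap 0 1 * Equiv.swap 1 2 : Equiv.Perm (Fin 3)) i : ℕ) :
      ℤ) - ((i : ℕ) : ℤ))) = ![1, 1, -2] := by decide
  have e6 : (fun i : Fin 3 => ((((Equiv.swap 1 2 * Equiv.swap 0 1 : Equiv.Perm (Fin 3)) i : ℕ) :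
      ℤ) - ((i : ℕ) : ℤ))) = ![2, -1, -1] := by decide
  rw [e1, e2, e3, e4, e5, e6]
  have s1 : Equiv.Perm.sign (1 : Equiv.Perm (Fin 3)) = 1 := by decide
  have s2 : Equiv.Perm.sign (Equiv.swap 0 1 : Equiv.Perm (Fin 3)) = -1 := by decide
  have s3 : Equiv.Perm.sign (Equiv.swap 1 2 : Equiv.Perm (Fin 3)) = -1 := by decide
  have s4 : Equiv.Perm.sign (Equiv.swap 0 2 : Equiv.Perm (Fin 3)) = -1 := by decide
  have s5 : Equiv.Perm.sign (Equiv.swap 0 1 * Equiv.swap 1 2 : Equiv.Perm (Fin 3)) = 1 := by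
    decide
  have s6 : Equiv.Perm.sign (Equiv.swap 1 2 * Equiv.swap 0 1 : Equiv.Perm (Fin 3)) = 1 := by
    decide
  rw [s1, s2, s3, s4, s5, s6]
  push_cast
  ring

theorem e0_of_inv (hρ : ∀ X Y, ρ (X * Y - Y * X) = ρ X * ρ Y - ρ Y * ρ X)
    {D : Module.End k M} (hD : ∀ i j, E ρ i j * D = D * E ρ i j) (hDC : D * Cas ρ = 1) :
    e0 3 (fun μ => (Module.finrank k (wsp ρ μ) : ℤ)) = 0 := by
  rw [e0_three]
  have inj : Function.Injective (Int.cast : ℤ → k) := Int.cast_injective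
  apply inj
  simp only [Int.cast_sub, Int.cast_add, Int.cast_zero]
  rw [dim_eq hρ hD hDC ![0, 0, 0], dim_eq hρ hD hDC ![1, -1, 0], dim_eq hρ hD hDC ![0, 1, -1],
    dim_eq hρ hD hDC ![2, -1, -1], dim_eq hρ hD hDC ![1, 1, -2], dim_eq hρ hD hDC ![2, 0, -2]]
  have a1 := T_step hρ hD 0 1 ![0, 0, 0] ![1, -1, 0] (by decide)
  have a2 := T_step hρ hD 1 2 ![0, 0, 0] ![0, 1, -1] (by decide)
  have a3 := T_step hρ hD 0 2 ![0, 0, 0] ![1, 0, -1] (by decide)
  have b1 := T_step hρ hD 0 1 ![0, 1, -1] ![1, 0, -1] (by decide)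
  have b2 := T_step hρ hD 1 2 ![1, -1, 0] ![1, 0, -1] (by decide)
  have c1 := T_step hρ hD 0 2 ![1, -1, 0] ![2, -1, -1] (by decide)
  have c2 := T_step hρ hD 0 2 ![0, 1, -1] ![1, 1, -2] (by decide)
  have d1 := T_step hρ hD 0 1 ![1, 0, -1] ![2, -1, -1] (by decide)
  have d2 := T_step hρ hD 1 2 ![1, 0, -1] ![1, 1, -2] (by decide)
  have d3 := T_step hρ hD 0 2 ![1, 0, -1] ![2, 0, -2] (by decide)
  have f1 := T_step hρ hD 0 1 ![1, 1, -2] ![2, 0, -2] (by decide)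
  have f2 := T_step hρ hD 1 2 ![2, -1, -1] ![2, 0, -2] (by decide)
  simp only [Matrix.cons_val_zero, Matrix.cons_val_one, Matrix.cons_val] at *
  rw [a1, a2, a3, b1, b2, c1, c2, d1, d2, d3, f1, f2]
  push_cast
  ring

end trace

/-! ### the Casimir operator is injective -/

section inj

variable [FiniteDimensional k M] {ρ : Matrix (Fin 3) (Fin 3) k →ₗ[k] Module.End k M}

/-- a stable nonzero subspace contains a weight vector -/
theorem exists_weight (K : Submodule k M) (hK : ∀ j, ∀ x ∈ K, E ρ j j x ∈ K)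
    (S : Finset (Fin 3 → ℤ)) : ∀ f : (Fin 3 → ℤ) → M, (∀ μ, f μ ∈ wsp ρ μ) →
      ∑ μ ∈ S, f μ ∈ K → ∑ μ ∈ S, f μ ≠ 0 → ∃ μ, ∃ x ∈ wsp ρ μ, x ∈ K ∧ x ≠ 0 := by
  classical
  induction S using Finset.induction_on with
  | empty => intro f _ _ h; simp at h
  | insert ν S hν ih =>
    intro f hf hx hne
    by_cases h : ∀ j, E ρ j j (∑ μ ∈ insert ν S, f μ) = ((ν j : ℤ) : k) • ∑ μ ∈ insert ν S, f μ
    · exact ⟨ν, _, (mem_wsp ρ ν _).mpr h, hx, hne⟩
    · push Not at h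
      obtain ⟨j, hj⟩ := h
      have e : E ρ j j (∑ μ ∈ insert ν S, f μ) - ((ν j : ℤ) : k) • ∑ μ ∈ insert ν S, f μ =
          ∑ μ ∈ S, (((μ j : ℤ) : k) - ((ν j : ℤ) : k)) • f μ := by
        rw [map_sum, Finset.smul_sum, ← Finset.sum_sub_distrib, Finset.sum_insert hν]
        rw [((mem_wsp ρ ν _).mp (hf ν)) j, sub_self, zero_add]
        refine Finset.sum_congr rfl fun μ _ => ?_
        rw [((mem_wsp ρ μ _).mp (hf μ)) j, sub_smul]
      refine ih (fun μ => (((μ j : ℤ) : k) - ((ν j : ℤ) : k)) • f μ)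
        (fun μ => Submodule.smul_mem _ _ (hf μ)) ?_ ?_
      · rw [← e]; exact K.sub_mem (hK j _ hx) (K.smul_mem _ hx)
      · rw [← e]; exact sub_ne_zero.mpr hj

theorem Cas_inj (hρ : ∀ X Y, ρ (X * Y - Y * X) = ρ X * ρ Y - ρ Y * ρ X)
    (h1 : ρ 1 = 0) (htop : ⨆ μ : Fin 3 → ℤ, wsp ρ μ = ⊤)
    (hinv : ∀ m : M, (∀ X, ρ X m = 0) → m = 0) : LinearMap.ker (Cas ρ) = ⊥ := by
  classical
  by_contra hK
  obtain ⟨x, hxK, hx0⟩ := Submodule.exists_mem_ne_zero_of_ne_bot hK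
  have hst : ∀ p q, ∀ y ∈ LinearMap.ker (Cas ρ), E ρ p q y ∈ LinearMap.ker (Cas ρ) := by
    intro p q y hy
    rw [LinearMap.mem_ker] at hy ⊢
    have := congrArg (fun A : Module.End k M => A y) (Cas_comm ρ hρ p q)
    simp only [Module.End.mul_apply] at this
    rw [← this, hy, map_zero]
  -- a weight vector in the kernel
  have hx : x ∈ ⨆ μ : Fin 3 → ℤ, wsp ρ μ := by rw [htop]; trivial
  rw [Submodule.mem_iSup_iff_exists_finsupp] at hx
  obtain ⟨f, hf, hfx⟩ := hx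
  rw [Finsupp.sum] at hfx
  obtain ⟨μ0, v0, hv0, hv0K, hv0ne⟩ := exists_weight (ρ := ρ) (LinearMap.ker (Cas ρ))
    (fun j => hst j j) f.support f hf (by rw [hfx]; exact hxK) (by rw [hfx]; exact hx0)
  -- heights of weight vectors in the kernel form a finite set
  let H : Set ℤ := {t | ∃ μ : Fin 3 → ℤ, μ 0 - μ 2 = t ∧ ∃ y ∈ wsp ρ μ, y ∈ LinearMap.ker (Cas ρ) ∧
    y ≠ 0}
  have hfin : H.Finite := by
    have h3 : {a : k | (E ρ 0 0 - E ρ 2 2).HasEigenvalue a}.Finite :=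
      Module.End.finite_hasEigenvalue _
    refine Set.Finite.of_finite_image (f := (Int.cast : ℤ → k)) (h3.subset ?_)
      Int.cast_injective.injOn
    rintro _ ⟨t, ⟨μ, hμ, y, hy, _, hy0⟩, rfl⟩
    refine Module.End.hasEigenvalue_of_hasEigenvector (x := y) ⟨?_, hy0⟩
    rw [Module.End.mem_eigenspace_iff, LinearMap.sub_apply, ((mem_wsp ρ μ y).mp hy) 0,
      ((mem_wsp ρ μ y).mp hy) 2, ← hμ]
    push_cast
    module
  have hne : H.Nonempty := ⟨μ0 0 - μ0 2, μ0, rfl, v0, hv0, hv0K, hv0ne⟩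
  obtain ⟨t, ⟨μ, hμt, v, hv, hvK, hvne⟩, hmax⟩ := hfin.exists_maximalFor id H hne
  have hmax' : ∀ s ∈ H, s ≤ t := by
    intro s hs
    by_contra hlt
    push Not at hlt
    have := hmax hs (le_of_lt hlt)
    exact absurd this (not_le.mpr hlt)
  have raise : ∀ i j : Fin 3, t < (μ + epsd i j) 0 - (μ + epsd i j) 2 → E ρ i j v = 0 := by
    intro i j hlt
    by_contra hne0
    have := hmax' _ ⟨μ + epsd i j, rfl, E ρ i j v, E_shift ρ hρ i j rfl hv, hst i j v hvK, hne0⟩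
    omega
  have e01 : E ρ 0 1 v = 0 := raise 0 1 (by simp [epsd]; omega)
  have e12 : E ρ 1 2 v = 0 := raise 1 2 (by simp [epsd]; omega)
  have e02 : E ρ 0 2 v = 0 := raise 0 2 (by simp [epsd]; omega)
  have hv' := (mem_wsp ρ μ v).mp hv
  -- the two primitive vectors
  have sl : ∀ i j : Fin 3, i ≠ j → E ρ i j v = 0 →
      (∃ n : ℕ, (((μ i - μ j : ℤ)) : k) = n) ∧ ((((μ i - μ j : ℤ)) : k) = 0 → E ρ j i v = 0) := by
    intro i j hij hE
    refine sl2v (E ρ i i - E ρ j j) (E ρ i j) (E ρ j i) ?_ ?_ ?_ v hvne _ ?_ hE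
    · rw [E_comm ρ hρ]; simp
    · have p1 := E_comm ρ hρ i i i j
      have p2 := E_comm ρ hρ j j i j
      have hji : ¬ j = i := fun h => hij h.symm
      simp only [if_true, hij, hji, if_false, sub_zero, zero_sub] at p1 p2
      rw [sub_mul, mul_sub, two_smul]
      calc E ρ i i * E ρ i j - E ρ j j * E ρ i j - (E ρ i j * E ρ i i - E ρ i j * E ρ j j)
          = (E ρ i i * E ρ i j - E ρ i j * E ρ i i) - (E ρ j j * E ρ i j - E ρ i j * E ρ j j) := by
            abel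
        _ = _ := by rw [p1, p2]; abel
    · have p1 := E_comm ρ hρ i i j i
      have p2 := E_comm ρ hρ j j j i
      have hji : ¬ j = i := fun h => hij h.symm
      simp only [if_true, hij, hji, if_false, sub_zero, zero_sub] at p1 p2
      rw [sub_mul, mul_sub, two_smul]
      calc E ρ i i * E ρ j i - E ρ j j * E ρ j i - (E ρ j i * E ρ i i - E ρ j i * E ρ j j)
          = (E ρ i i * E ρ j i - E ρ j i * E ρ i i) - (E ρ j j * E ρ j i - E ρ j i * E ρ j j) := by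
            abel
        _ = _ := by rw [p1, p2]; abel
    · rw [LinearMap.sub_apply, hv' i, hv' j]; push_cast; module
  obtain ⟨⟨a, ha⟩, fa⟩ := sl 0 1 (by decide) e01
  obtain ⟨⟨b, hb⟩, fb⟩ := sl 1 2 (by decide) e12
  have ha' : μ 0 - μ 1 = (a : ℤ) := by
    have : ((μ 0 - μ 1 : ℤ) : k) = ((a : ℤ) : k) := by rw [ha]; simp
    exact Int.cast_injective this
  have hb' : μ 1 - μ 2 = (b : ℤ) := by
    have : ((μ 1 - μ 2 : ℤ) : k) = ((b : ℤ) : k) := by rw [hb]; simp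
    exact Int.cast_injective this
  -- the sum of the weight is zero
  have hsum : μ 0 + μ 1 + μ 2 = 0 := by
    have h2 := congrArg (fun A : Module.End k M => A v) (E_diag ρ h1)
    simp only [LinearMap.add_apply, hv' 0, hv' 1, hv' 2, LinearMap.zero_apply] at h2
    rw [← add_smul, ← add_smul] at h2
    have h3 := (smul_eq_zero.mp h2).resolve_right hvne
    exact_mod_cast h3
  -- the Casimir eigenvalue
  have hC : (μ 0) ^ 2 + (μ 1) ^ 2 + (μ 2) ^ 2 + 2 * (μ 0 - μ 2) = 0 := by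
    have h2 := Cas_apply ρ hρ μ hv
    rw [LinearMap.mem_ker.mp hvK, e01, e12, e02] at h2
    simp only [map_zero, smul_zero, zero_add] at h2
    have h3 := (smul_eq_zero.mp h2.symm).resolve_right hvne
    exact_mod_cast h3
  have hnn : 0 ≤ μ 0 - μ 2 := by omega
  have hz : μ 0 = 0 ∧ μ 1 = 0 ∧ μ 2 = 0 := by
    have q0 := sq_nonneg (μ 0)
    have q1 := sq_nonneg (μ 1)
    have q2 := sq_nonneg (μ 2)
    refine ⟨?_, ?_, ?_⟩ <;> exact pow_eq_zero_iff (two_ne_zero) |>.mp (by linarith)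
  obtain ⟨z0, z1, z2⟩ := hz
  have f10 : E ρ 1 0 v = 0 := fa (by rw [z0, z1]; simp)
  have f21 : E ρ 2 1 v = 0 := fb (by rw [z1, z2]; simp)
  have f20 : E ρ 2 0 v = 0 := by
    have h2 := congrArg (fun A : Module.End k M => A v) (E_comm ρ hρ 2 1 1 0)
    simp only [LinearMap.sub_apply, Module.End.mul_apply, f10, f21, map_zero, sub_zero, if_true]
      at h2
    simpa using h2.symm
  have hall : ∀ i j, E ρ i j v = 0 := by
    have d0 : E ρ 0 0 v = 0 := by rw [hv' 0, z0]; simp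
    have d1 : E ρ 1 1 v = 0 := by rw [hv' 1, z1]; simp
    have d2 : E ρ 2 2 v = 0 := by rw [hv' 2, z2]; simp
    intro i j
    fin_cases i <;> fin_cases j <;> assumption
  refine hvne (hinv v fun X => ?_)
  rw [rho_eq ρ X]
  simp [hall]

end inj

theorem rep3 {k M : Type*} [Field k] [CharZero k] [AddCommGroup M] [Module k M]
    [FiniteDimensional k M] (ρ : Matrix (Fin 3) (Fin 3) k →ₗ[k] Module.End k M)
    (hρ : ∀ X Y, ρ (X * Y - Y * X) = ρ X * ρ Y - ρ Y * ρ X)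
    (h1 : ρ 1 = 0) (htop : ⨆ μ : Fin 3 → ℤ, wsp ρ μ = ⊤)
    (hinv : ∀ m : M, (∀ X, ρ X m = 0) → m = 0) :
    e0 3 (fun μ => (Module.finrank k (wsp ρ μ) : ℤ)) = 0 := by
  have hker := Cas_inj hρ h1 htop hinv
  have hinj : Function.Injective (Cas ρ) := LinearMap.ker_eq_bot.mp hker
  let C := LinearEquiv.ofInjectiveEndo (Cas ρ) hinj
  have hC : ∀ x, C x = Cas ρ x := fun x => rfl
  let D : Module.End k M := C.symm.toLinearMap
  have hD1 : ∀ x, D (Cas ρ x) = x := fun x => by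
    rw [← hC]; exact C.symm_apply_apply x
  have hD2 : ∀ x, Cas ρ (D x) = x := fun x => by
    rw [← hC]; exact C.apply_symm_apply x
  refine e0_of_inv (D := D) hρ (fun i j => ?_) (by ext x; exact hD1 x)
  ext x
  have h2 := congrArg (fun A : Module.End k M => A (D x)) (Cas_comm ρ hρ i j)
  simp only [Module.End.mul_apply, hD2] at h2
  simp only [Module.End.mul_apply]
  rw [h2, hD1]

end Pool.Agent.Y556.KM
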